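import Mathlib

namespace Pool.Agent.Results.MP_75d27e_nt.NotInj

/-- An `m`-product sequence: non-decreasing, product an `m`-th power, no entry more than
`m - 1` times. -/
def IsSeq (m : ℕ) (l : List ℕ) : Prop :=
  l.Pairwise (· ≤ ·) ∧ (∃ R : ℕ, l.prod = R ^ m) ∧ ∀ x, l.count x ≤ m - 1

/-- `g m n` is the least last entry of an `m`-product sequence with first entry `n`. -/
noncomputable def g (m n : ℕ) : ℕ :=
  sInf {s | ∃ l, IsSeq m l ∧ l.head? = some n ∧ l.getLast? = some s}

lemma fact_count {t : ℕ} (ht : t.Prime) : ∀ l : List ℕ, (∀ x ∈ l, 1 ≤ x ∧ x ≤ t) →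
    l.prod ≠ 0 ∧ l.prod.factorization t = l.count t := by
  intro l
  induction l with
  | nil => intro _; simp
  | cons a l ih =>
    intro h
    obtain ⟨h1, h2⟩ := ih fun x hx => h x (List.mem_cons_of_mem _ hx)
    obtain ⟨ha1, ha2⟩ := h a List.mem_cons_self
    refine ⟨by rw [List.prod_cons]; exact mul_ne_zero (by omega) h1, ?_⟩
    rw [List.prod_cons, Nat.factorization_mul (by omega) h1, Finsupp.add_apply, h2, List.count_cons]
    rcases ha2.eq_or_lt with rfl | hlt
    · simp [ht.factorization_self, add_comm]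
    · have : a ≠ t := hlt.ne
      simp [Nat.factorization_eq_zero_of_lt hlt, this]

lemma last_props {m n t : ℕ} (hm : 2 ≤ m) (hn : 1 ≤ n) {l : List ℕ} (hl : IsSeq m l)
    (hh : l.head? = some n) (hlast : l.getLast? = some t) : 1 ≤ t ∧ ¬ t.Prime := by
  obtain ⟨hp, ⟨R, hR⟩, hc⟩ := hl
  have hlow : ∀ x ∈ l, n ≤ x := by
    obtain ⟨l', rfl⟩ := List.head?_eq_some_iff.mp hh
    intro x hx
    rcases List.mem_cons.mp hx with rfl | hx
    · exact le_rfl
    · exact (List.pairwise_cons.mp hp).1 x hx
  obtain ⟨l', hl'⟩ := List.getLast?_eq_some_iff.mp hlast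
  have hup : ∀ x ∈ l, x ≤ t := by
    subst hl'
    intro x hx
    rcases List.mem_append.mp hx with hx | hx
    · exact (List.pairwise_append.mp hp).2.2 x hx t (by simp)
    · simp at hx; omega
  have htl : t ∈ l := by subst hl'; simp
  refine ⟨hn.trans (hlow t htl), fun ht => ?_⟩
  obtain ⟨-, h2⟩ := fact_count ht l fun x hx => ⟨hn.trans (hlow x hx), hup x hx⟩
  rw [hR, Nat.factorization_pow, Finsupp.smul_apply, smul_eq_mul] at h2
  have h3 : 0 < l.count t := List.count_pos_iff.mpr htl
  have h4 := Nat.le_of_dvd h3 ⟨_, h2.symm⟩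
  have := hc t
  omega

lemma pow_of_dvd {m N : ℕ} (hN : N ≠ 0) (h : ∀ q, m ∣ N.factorization q) : ∃ R, N = R ^ m := by
  refine ⟨N.factorization.prod fun q k => q ^ (k / m), ?_⟩
  conv_lhs => rw [← Nat.prod_factorization_pow_eq_self hN]
  rw [Finsupp.prod, Finsupp.prod, ← Finset.prod_pow]
  apply Finset.prod_congr rfl
  intro q _
  rw [← pow_mul, Nat.div_mul_cancel (h q)]

noncomputable def phi (m s : ℕ) :
    (Fin s → ZMod m) →+ (((Finset.Icc 1 s).filter Nat.Prime) → ZMod m) where
  toFun e q := ∑ i, e i * ((i.val + 1).factorization q.val : ZMod m)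
  map_zero' := by ext q; simp
  map_add' e f := by ext q; simp [add_mul, Finset.sum_add_distrib]

lemma g_of_ker {m s : ℕ} (hm : 2 ≤ m) (e : Fin s → ZMod m) (he : phi m s e = 0) (i : Fin s)
    (hi : e i ≠ 0) (hlt : ∀ j < i, e j = 0) :
    g m (i.val + 1) ∈ (Finset.Icc 1 s).filter fun x => ¬ x.Prime := by
  have : NeZero m := ⟨by omega⟩
  let M : Multiset ℕ := ∑ j : Fin s, Multiset.replicate (e j).val (j.val + 1)
  have hmem : ∀ x, x ∈ M ↔ ∃ j : Fin s, e j ≠ 0 ∧ x = j.val + 1 := by
    intro x
    simp only [M, Multiset.mem_sum, Finset.mem_univ, true_and, Multiset.mem_replicate, ne_eq,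
      ZMod.val_eq_zero]
  have hprod : M.prod = ∏ j : Fin s, (j.val + 1) ^ (e j).val := by
    simp only [M, Multiset.prod_sum, Multiset.prod_replicate]
  have hseq : IsSeq m (M.sort (· ≤ ·)) := by
    refine ⟨Multiset.pairwise_sort _ _, ?_, ?_⟩
    · rw [← Multiset.prod_coe, Multiset.sort_eq, hprod]
      apply pow_of_dvd (Finset.prod_ne_zero_iff.mpr fun j _ => by positivity)
      intro q
      rw [Nat.factorization_prod fun j _ => by positivity]
      simp only [Nat.factorization_pow, Finsupp.coe_finset_sum, Finset.sum_apply,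
        Finsupp.smul_apply, smul_eq_mul]
      by_cases hq : q ∈ (Finset.Icc 1 s).filter Nat.Prime
      · have h1 := congrFun he ⟨q, hq⟩
        rw [← ZMod.natCast_eq_zero_iff]
        push_cast
        simpa [phi] using h1
      · apply Finset.dvd_sum
        intro j _
        have : (j.val + 1).factorization q = 0 := by
          by_cases hp : q.Prime
          · apply Nat.factorization_eq_zero_of_lt
            have h2 := hp.one_le
            have h3 := j.isLt
            simp only [Finset.mem_filter, Finset.mem_Icc, hp, and_true] at hq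
            omega
          · exact Nat.factorization_eq_zero_of_not_prime _ hp
        simp [this]
    · intro x
      rw [← Multiset.coe_count, Multiset.sort_eq]
      simp only [M, Multiset.count_sum', Multiset.count_replicate]
      by_cases hx : ∃ j : Fin s, j.val + 1 = x
      · obtain ⟨j, rfl⟩ := hx
        rw [Finset.sum_eq_single j]
        · have := ZMod.val_lt (e j)
          simp only [if_true]
          omega
        · intro k _ hk
          rw [if_neg]
          intro h
          exact hk (Fin.ext (by omega))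
        · simp
      · rw [Finset.sum_eq_zero]
        · omega
        · intro j _
          rw [if_neg]
          intro h
          exact hx ⟨j, h⟩
  have hin : i.val + 1 ∈ M.sort (· ≤ ·) := by
    rw [Multiset.mem_sort]; exact (hmem _).mpr ⟨i, hi, rfl⟩
  have hall : ∀ x ∈ M.sort (· ≤ ·), i.val + 1 ≤ x ∧ x ≤ s := by
    intro x hx
    rw [Multiset.mem_sort] at hx
    obtain ⟨j, hj, rfl⟩ := (hmem _).mp hx
    have h1 : ¬ j < i := fun h => hj (hlt j h)
    have h2 := j.isLt
    have h3 : i.val ≤ j.val := not_lt.mp h1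
    omega
  generalize M.sort (· ≤ ·) = l at hseq hin hall
  have hne : l ≠ [] := List.ne_nil_of_mem hin
  have hhead : l.head? = some (i.val + 1) := by
    obtain ⟨a, l', rfl⟩ := List.exists_cons_of_ne_nil hne
    have h1 := (hall a List.mem_cons_self).1
    rcases List.mem_cons.mp hin with h | h
    · simp [h]
    · have := (List.pairwise_cons.mp hseq.1).1 _ h
      have : a = i.val + 1 := by omega
      simp [this]
  have hmemS : l.getLast hne ∈
      {s | ∃ l, IsSeq m l ∧ l.head? = some (i.val + 1) ∧ l.getLast? = some s} :=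
    ⟨l, hseq, hhead, List.getLast?_eq_some_getLast hne⟩
  have h1 : g m (i.val + 1) ≤ l.getLast hne := Nat.sInf_le hmemS
  have h2 := (hall _ (List.getLast_mem hne)).2
  obtain ⟨l', h3, h4, h5⟩ := Nat.sInf_mem ⟨_, hmemS⟩
  obtain ⟨h6, h7⟩ := last_props hm (by omega) h3 h4 h5
  simp only [Finset.mem_filter, Finset.mem_Icc]
  exact ⟨⟨h6, h1.trans h2⟩, h7⟩

lemma exists_least {m s : ℕ} (e : Fin s → ZMod m) (he : e ≠ 0) :
    ∃ i, e i ≠ 0 ∧ ∀ j < i, e j = 0 := by
  classical
  have hne : (Finset.univ.filter fun i => e i ≠ 0).Nonempty := by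
    obtain ⟨i, hi⟩ := Function.ne_iff.mp he
    exact ⟨i, by simpa using hi⟩
  refine ⟨_, (Finset.mem_filter.mp (Finset.min'_mem _ hne)).2, fun j hj => ?_⟩
  by_contra h
  exact absurd (Finset.min'_le _ j (by simpa using h)) (not_le.mpr hj)

theorem result (m : ℕ) (hm : 2 ≤ m) (hcomp : ¬ m.Prime) :
    ¬ Set.InjOn (g m) {n | 1 ≤ n} := by
  classical
  intro hinj
  have : NeZero m := ⟨by omega⟩
  have : Fact (1 < m) := ⟨by omega⟩
  set p := m.minFac with hp
  have hpp : p.Prime := Nat.minFac_prime (by omega)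
  have hpm : p ∣ m := Nat.minFac_dvd m
  have hplt : p < m := (Nat.not_prime_iff_minFac_lt hm).mp hcomp
  obtain ⟨s', hs'⟩ : ∃ s', 2 ^ p = s' + 1 := ⟨2 ^ p - 1, by have := Nat.one_le_two_pow (n := p); omega⟩
  set s := s' + 1 with hs
  let A : Finset (Fin s) := Finset.univ.filter fun i =>
    ∃ e : Fin s → ZMod m, phi m s e = 0 ∧ e i ≠ 0 ∧ ∀ j < i, e j = 0
  have hA : A.card ≤ ((Finset.Icc 1 s).filter fun x => ¬ x.Prime).card := by
    apply Finset.card_le_card_of_injOn fun i => g m (i.val + 1)
    · intro i hi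
      obtain ⟨e, h1, h2, h3⟩ := (Finset.mem_filter.mp (Finset.mem_coe.mp hi)).2
      exact Finset.mem_coe.mpr (g_of_ker hm e h1 i h2 h3)
    · intro i _ j _ h
      have := hinj (show 1 ≤ i.val + 1 by omega) (show 1 ≤ j.val + 1 by omega) h
      exact Fin.ext (by omega)
  have hsingle : ∀ (c : ZMod m) (q : (Finset.Icc 1 s).filter Nat.Prime),
      phi m s (Pi.single (Fin.last s') c) q = c * ((2 ^ p).factorization q.val : ZMod m) := by
    intro c q
    show ∑ i : Fin s, (Pi.single (Fin.last s') c : Fin s → ZMod m) i *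
      ((i.val + 1).factorization q.val : ZMod m) = _
    rw [Finset.sum_eq_single (Fin.last s')]
    · rw [Pi.single_eq_same, hs']
      rfl
    · intro b _ hb; simp [Pi.single_eq_of_ne hb]
    · simp
  have hlastA : Fin.last s' ∈ A := by
    refine Finset.mem_filter.mpr ⟨Finset.mem_univ _, Pi.single (Fin.last s') ((m / p : ℕ) : ZMod m), ?_, ?_, ?_⟩
    · ext q
      rw [hsingle, Nat.factorization_pow, Finsupp.smul_apply, smul_eq_mul, Nat.cast_mul, ← mul_assoc,
        ← Nat.cast_mul, Nat.div_mul_cancel hpm]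
      simp
    · rw [Pi.single_eq_same, Ne, ZMod.natCast_eq_zero_iff]
      intro h
      have h1 : 0 < m / p := Nat.div_pos hplt.le hpp.pos
      have h2 : m / p < m := Nat.div_lt_self (by omega) hpp.one_lt
      have := Nat.le_of_dvd h1 h
      omega
    · intro j hj
      exact Pi.single_eq_of_ne hj.ne _
  let ρ : (phi m s).ker → (A → ZMod m) := fun e i => e.val i.val
  have hρ : Function.Injective ρ := by
    intro e f h
    by_contra hne
    have h0 : e.val - f.val ≠ 0 := fun h0 => hne (Subtype.ext (sub_eq_zero.mp h0))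
    obtain ⟨i, h1, h2⟩ := exists_least _ h0
    have hi : i ∈ A := Finset.mem_filter.mpr ⟨Finset.mem_univ _, e.val - f.val,
      (sub_mem e.2 f.2 : e.val - f.val ∈ (phi m s).ker), h1, h2⟩
    exact h1 (sub_eq_zero.mpr (congrFun h ⟨i, hi⟩))
  have hρ' : ¬ Function.Surjective ρ := by
    intro hsurj
    obtain ⟨e, he⟩ := hsurj (Pi.single ⟨_, hlastA⟩ 1)
    have hl : e.val (Fin.last s') = 1 := by simpa using congrFun he ⟨_, hlastA⟩
    have h0 : e.val ≠ 0 := fun h0 => by rw [h0] at hl; simp at hl
    obtain ⟨i, h1, h2⟩ := exists_least _ h0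
    have hi : i ∈ A := Finset.mem_filter.mpr ⟨Finset.mem_univ _, e.val, e.2, h1, h2⟩
    have hil : i = Fin.last s' := by
      by_contra hne
      apply h1
      have h3 := congrFun he ⟨i, hi⟩
      rw [Pi.single_eq_of_ne (fun h => hne (congrArg Subtype.val h))] at h3
      exact h3
    have he1 : e.val = Pi.single (Fin.last s') 1 := by
      ext j
      by_cases hj : j = Fin.last s'
      · rw [hj, hl, Pi.single_eq_same]
      · rw [Pi.single_eq_of_ne hj]
        exact h2 j (hil ▸ lt_of_le_of_ne (Fin.le_last j) hj)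
    have h2s : 2 ∈ (Finset.Icc 1 s).filter Nat.Prime := by
      have : 2 ^ 1 ≤ 2 ^ p := Nat.pow_le_pow_right (by norm_num) hpp.one_le
      simp only [Finset.mem_filter, Finset.mem_Icc]
      exact ⟨⟨by norm_num, by omega⟩, Nat.prime_two⟩
    have h4 : phi m s e.val = 0 := e.2
    have h5 := congrFun h4 ⟨2, h2s⟩
    rw [he1, hsingle, one_mul, Nat.factorization_pow, Finsupp.smul_apply,
      Nat.prime_two.factorization_self] at h5
    simp only [smul_eq_mul, mul_one, Pi.zero_apply, ZMod.natCast_eq_zero_iff] at h5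
    have := Nat.le_of_dvd hpp.pos h5
    omega
  have hK : Nat.card (phi m s).ker < m ^ A.card := by
    have := Fintype.card_lt_of_injective_not_surjective ρ hρ hρ'
    rw [Nat.card_eq_fintype_card]
    simpa [ZMod.card] using this
  have hQ : Nat.card ((Fin s → ZMod m) ⧸ (phi m s).ker) ≤
      m ^ ((Finset.Icc 1 s).filter Nat.Prime).card := by
    have := Nat.card_le_card_of_injective _ (QuotientAddGroup.kerLift_injective (phi m s))
    refine this.trans_eq ?_
    rw [Nat.card_eq_fintype_card, Fintype.card_fun, ZMod.card, Fintype.card_coe]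
  have hV := AddSubgroup.card_eq_card_quotient_mul_card_addSubgroup (phi m s).ker
  have hV' : Nat.card (Fin s → ZMod m) = m ^ s := by
    simp [Nat.card_eq_fintype_card, ZMod.card]
  have hsum := Finset.card_filter_add_card_filter_not (s := Finset.Icc 1 s) Nat.Prime
  rw [Nat.card_Icc] at hsum
  have h1 : m ^ s < m ^ (((Finset.Icc 1 s).filter Nat.Prime).card + A.card) := by
    rw [← hV', hV, pow_add]
    exact Nat.mul_lt_mul_of_le_of_lt hQ hK (by positivity)
  have := (Nat.pow_lt_pow_iff_right (by omega : 1 < m)).mp h1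
  omega

end Pool.Agent.Results.MP_75d27e_nt.NotInj
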